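import Pool.Agent.Helper93.FD.Final

/-!
# MP_35947b_nt: all but boundedly many dilates of an optimal additive basis modulo `m` are equidistributed

`sg A n` is the number of representations of `n` as an ordered sum of two elements of `A`,
`Bs r A` says `1 ≤ sg A n ≤ r` for all `n`, `Rz m` is the Ruzsa number `R_m`, `Fam m` the family of all
optimal bases, `gap A` the largest cyclic gap `G(A)`, `dil u A` the dilate `u A` by a unit `u` modulo `m`
(see `Pool/Agent/Helper4/AE/Defs.lean`), and `cnt B x L` the number of elements of `B` in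
`{x, x + 1, ..., x + (L - 1)}`.
-/

set_option autoImplicit false

namespace Pool.Agent.Results.MP_35947b_nt.FewDilates

open Finset Pool.Agent.Helper4.AE Pool.Agent.Helper93.FD

theorem mem_Fam {m : ℕ} [NeZero m] (A : Finset (ZMod m)) : A ∈ Fam m ↔ Bs (Rz m) A := by
  simp [Fam]

/-- a gap longer than `L` gives an empty interval of length `L` -/
theorem empty_of_gap {m : ℕ} [NeZero m] (B : Finset (ZMod m)) (L : ℕ) (h : L < gap B) :
    L ≤ m ∧ ∃ x, cnt B x L = 0 := by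
  obtain ⟨S, hS⟩ : ∃ S : Set ℕ, S = {g : ℕ | g ≤ m ∧ ∃ a ∈ B, ∀ i : ℕ, 0 < i → i < g →
    a + (i : ZMod m) ∉ B} := ⟨_, rfl⟩
  have hg : gap B = sSup S := by rw [hS]; rfl
  have hne : S.Nonempty := by
    by_contra h0
    rw [Set.not_nonempty_iff_eq_empty] at h0
    rw [hg, h0, csSup_empty] at h
    exact Nat.not_lt_zero _ h
  have hbd : BddAbove S := ⟨m, fun g hg' => by rw [hS] at hg'; exact hg'.1⟩
  have hmem : sSup S ∈ S := Nat.sSup_mem hne hbd
  rw [← hg] at hmem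
  rw [hS] at hmem
  obtain ⟨hgm, a, _, ha⟩ := hmem
  refine ⟨by omega, a + 1, ?_⟩
  unfold cnt
  rw [Finset.card_eq_zero, ← Finset.disjoint_iff_inter_eq_empty, Finset.disjoint_left]
  intro b hb hb2
  rw [mem_image] at hb2
  obtain ⟨i, hi, rfl⟩ := hb2
  rw [mem_range] at hi
  have h1 := ha (i + 1) (by omega) (by omega)
  apply h1
  convert hb using 1
  push_cast
  ring

/-- few dilates have a gap longer than `L` -/
theorem few {m : ℕ} [NeZero m] (A : Finset (ZMod m)) (hA : A ∈ Fam m) (L : ℕ) :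
    ((Finset.univ : Finset (ZMod m)ˣ).filter fun u => L < gap (dil u A)).card * L ^ 4 ≤
      64 * Rz m * m ^ 4 := by
  rcases Nat.eq_zero_or_pos L with h0 | hL
  · subst h0
    simp
  rcases ((Finset.univ : Finset (ZMod m)ˣ).filter fun u => L < gap (dil u A)).eq_empty_or_nonempty
    with he | ⟨u0, hu0⟩
  · rw [he]
    simp
  rw [mem_filter] at hu0
  have hLm := (empty_of_gap _ L hu0.2).1
  have h1 := lower_ineq A (Rz m) ((mem_Fam A).mp hA) L 1 hL hLm one_pos le_rfl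
    ((Finset.univ : Finset (ZMod m)ˣ).filter fun u => L < gap (dil u A)) (by
      intro u hu
      rw [mem_filter] at hu
      obtain ⟨x, hx⟩ := (empty_of_gap _ L hu.2).2
      exact ⟨x, by rw [hx]; simp⟩)
  rw [one_pow, one_mul] at h1
  exact_mod_cast h1

/-- equidistribution -/
theorem equi {m : ℕ} [NeZero m] (A : Finset (ZMod m)) (hA : A ∈ Fam m) (L : ℕ) (κ : ℝ) (hL : 1 ≤ L)
    (hLm : 3 * L ≤ 2 * m) (hκ : 0 < κ) (hκ1 : κ ≤ 1) (E : Finset (ZMod m)ˣ)
    (hE : ∀ u ∈ E, ∃ x, κ * (L * A.card) ≤ |(cnt (dil u A) x L : ℝ) * m - L * A.card|) :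
    (E.card : ℝ) * (κ ^ 6 * L ^ 4) ≤ 208 * Rz m * m ^ 4 := by
  classical
  obtain ⟨E1, hE1⟩ : ∃ E1, E1 = E.filter fun u => ∃ x, (cnt (dil u A) x L : ℝ) * m ≤
    (1 - κ) * (L * A.card) := ⟨_, rfl⟩
  obtain ⟨E2, hE2⟩ : ∃ E2, E2 = E.filter fun u => ∃ x, (1 + κ) * (L * A.card) ≤
    (cnt (dil u A) x L : ℝ) * m := ⟨_, rfl⟩
  have hsub : E ⊆ E1 ∪ E2 := by
    intro u hu
    obtain ⟨x, hx⟩ := hE u hu
    rw [mem_union, hE1, hE2, mem_filter, mem_filter]
    rcases le_abs.mp hx with h | h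
    · right
      exact ⟨hu, x, by linarith⟩
    · left
      exact ⟨hu, x, by linarith⟩
  have hcard : (E.card : ℝ) ≤ E1.card + E2.card := by
    exact_mod_cast (Finset.card_le_card hsub).trans (Finset.card_union_le E1 E2)
  have h1 := lower_ineq A (Rz m) ((mem_Fam A).mp hA) L κ hL (by omega) hκ hκ1 E1 (by
    intro u hu
    rw [hE1, mem_filter] at hu
    exact hu.2)
  have h2 := upper_ineq A (Rz m) ((mem_Fam A).mp hA) L κ hL hLm hκ hκ1 E2 (by
    intro u hu
    rw [hE2, mem_filter] at hu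
    exact hu.2)
  have hpos : (0 : ℝ) ≤ κ ^ 6 * L ^ 4 := by positivity
  calc (E.card : ℝ) * (κ ^ 6 * L ^ 4) ≤ (E1.card + E2.card) * (κ ^ 6 * L ^ 4) :=
        mul_le_mul_of_nonneg_right hcard hpos
    _ ≤ 64 * Rz m * m ^ 4 + 144 * Rz m * m ^ 4 := by linarith
    _ = _ := by ring

/-- For every `m ≥ 1` optimal bases modulo `m` exist, their family is closed under dilation by units, `R_m ≤ 11664`, and for
every optimal basis `A` and every `L`:
(1) at most `64 R_m (m / L) ^ 4` of the dilates `u A` (`u` a unit modulo `m`) have a cyclic gap longer than `L`;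
(2) if `1 ≤ L ≤ 2 m / 3` and `0 < κ ≤ 1`, then for all but at most `208 R_m κ⁻⁶ (m / L) ^ 4` units `u` every interval of length
`L` has `(1 + θ) L |A| / m` elements of `u A`, `|θ| < κ`. -/
theorem result : ∀ (m : ℕ) [NeZero m],
    (Fam m).Nonempty ∧ (∀ A ∈ Fam m, ∀ u : (ZMod m)ˣ, dil u A ∈ Fam m) ∧ Rz m ≤ 11664 ∧
    ∀ A ∈ Fam m, ∀ L : ℕ,
      ((Finset.univ : Finset (ZMod m)ˣ).filter fun u => L < gap (dil u A)).card * L ^ 4 ≤
        64 * Rz m * m ^ 4 ∧
      ∀ κ : ℝ, 1 ≤ L → 3 * L ≤ 2 * m → 0 < κ → κ ≤ 1 → ∃ E : Finset (ZMod m)ˣ,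
        (E.card : ℝ) * (κ ^ 6 * L ^ 4) ≤ 208 * Rz m * m ^ 4 ∧
        ∀ u : (ZMod m)ˣ, u ∉ E → ∀ x : ZMod m,
          |(cnt (dil u A) x L : ℝ) * m - L * A.card| < κ * (L * A.card) := by
  classical
  intro m _
  obtain ⟨hRz, A0, hA0⟩ := pRB m
  refine ⟨⟨A0, (mem_Fam A0).mpr hA0⟩, fun A hA u => ?_, hRz, fun A hA L => ⟨few A hA L, ?_⟩⟩
  · rw [mem_Fam] at hA ⊢
    exact (Pool.Agent.Helper82.AE.hINV m (fun _ => True)).1 (Rz m) u A hA
  · intro κ hL hLm hκ hκ1
    refine ⟨Finset.univ.filter fun u => ∃ x, κ * (L * A.card) ≤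
      |(cnt (dil u A) x L : ℝ) * m - L * A.card|, ?_, ?_⟩
    · apply equi A hA L κ hL hLm hκ hκ1
      intro u hu
      exact (mem_filter.mp hu).2
    · intro u hu x
      by_contra h
      exact hu (mem_filter.mpr ⟨mem_univ u, x, not_lt.mp h⟩)

end Pool.Agent.Results.MP_35947b_nt.FewDilates
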