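import Pool.Agent.Helper4.AE.All

/-!
# MP_35947b_nt: near optimal additive bases modulo `m` with gaps `m / 3`, ..., `(1 / 2 - ε) m`

`sg A n` is the number of representations of `n` as an ordered sum of two elements of `A`,
`Bs r A` says `1 ≤ sg A n ≤ r` for all `n`, `Rz m` is the Ruzsa number `R_m`, `gap A` the largest cyclic
gap `G(A)` (see `Pool/Agent/Helper4/AE/Defs.lean`).
-/

set_option autoImplicit false

namespace Pool.Agent.Results.MP_35947b_nt.NearOptimalGaps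

open Finset Pool.Agent.Helper4.AE

/-- the blocks `B + j M`, `j ∈ S`, modulo `m` -/
def blk {M : ℕ} (m : ℕ) (B : Finset (ZMod M)) (S : Finset ℕ) : Finset (ZMod m) :=
  (B ×ˢ S).image fun p => ((p.1.val + p.2 * M : ℕ) : ZMod m)

/-- the value of a pair of pairs -/
def vl {M : ℕ} (q : (ZMod M × ℕ) × (ZMod M × ℕ)) : ℕ :=
  q.1.1.val + q.1.2 * M + (q.2.1.val + q.2.2 * M)

/-- the pairs of pairs which represent `n` -/
def QQ {M : ℕ} (m : ℕ) (B : Finset (ZMod M)) (S : Finset ℕ) (n : ZMod m) :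
    Finset ((ZMod M × ℕ) × (ZMod M × ℕ)) :=
  ((B ×ˢ S) ×ˢ (B ×ˢ S)).filter fun q => ((vl q : ℕ) : ZMod m) = n

theorem sg_le_QQ {M : ℕ} (m : ℕ) (B : Finset (ZMod M)) (S : Finset ℕ) (n : ZMod m) :
    sg (blk m B S) n ≤ (QQ m B S n).card := by
  classical
  unfold sg
  refine le_trans (Finset.card_le_card (t := (QQ m B S n).image fun q =>
    (((q.1.1.val + q.1.2 * M : ℕ) : ZMod m), ((q.2.1.val + q.2.2 * M : ℕ) : ZMod m))) ?_)
    Finset.card_image_le
  intro x hx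
  rw [mem_filter, mem_product] at hx
  obtain ⟨⟨h1, h2⟩, h3⟩ := hx
  unfold blk at h1 h2
  rw [mem_image] at h1 h2
  obtain ⟨p, hp, hp1⟩ := h1
  obtain ⟨p', hp', hp1'⟩ := h2
  rw [mem_image]
  refine ⟨(p, p'), ?_, ?_⟩
  · unfold QQ vl
    rw [mem_filter, mem_product]
    refine ⟨⟨hp, hp'⟩, ?_⟩
    rw [← h3, ← hp1, ← hp1']
    push_cast
    ring
  · rw [hp1, hp1']

/-- if the values of the elements of `Q` with equal `(b, b', i)` agree, then `Q` is small -/
theorem card_fib {M : ℕ} [NeZero M] (B : Finset (ZMod M)) (S : Finset ℕ) (r : ℕ) (x : ZMod M) (hB : Bs r B)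
    (Q : Finset ((ZMod M × ℕ) × (ZMod M × ℕ)))
    (hQ : ∀ q ∈ Q, q.1.1 ∈ B ∧ q.2.1 ∈ B ∧ q.1.2 ∈ S ∧ q.1.1 + q.2.1 = x)
    (hinj : ∀ q ∈ Q, ∀ q' ∈ Q, q.1.1 = q'.1.1 → q.2.1 = q'.2.1 → q.1.2 = q'.1.2 → vl q = vl q') :
    Q.card ≤ r * S.card := by
  classical
  have hM : 0 < M := Nat.pos_of_ne_zero (NeZero.ne M)
  refine le_trans (Finset.card_le_card_of_injOn (t := ((B ×ˢ B).filter fun p => p.1 + p.2 = x) ×ˢ
    S) (fun q => ((q.1.1, q.2.1), q.1.2)) ?_ ?_) ?_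
  · intro q hq
    obtain ⟨h1, h2, h3, h4⟩ := hQ q hq
    simp only [coe_product, Set.mem_prod, mem_coe, mem_filter, mem_product]
    exact ⟨⟨⟨h1, h2⟩, h4⟩, h3⟩
  · intro q hq q' hq' he
    simp only [Prod.mk.injEq] at he
    obtain ⟨⟨e1, e2⟩, e3⟩ := he
    have h := hinj q hq q' hq' e1 e2 e3
    unfold vl at h
    rw [e1, e2, e3] at h
    have h5 : q.2.2 * M = q'.2.2 * M := by omega
    have h6 : q.2.2 = q'.2.2 := Nat.eq_of_mul_eq_mul_right hM h5
    exact Prod.ext (Prod.ext e1 e3) (Prod.ext e2 h6)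
  · rw [card_product]
    exact Nat.mul_le_mul_right _ (hB x).2

theorem vl_lt {M : ℕ} [NeZero M] (J : ℕ) (q : (ZMod M × ℕ) × (ZMod M × ℕ))
    (h1 : q.1.2 ≤ J) (h2 : q.2.2 ≤ J) : vl q < 2 * ((J + 1) * M) := by
  have a1 : q.1.1.val < M := ZMod.val_lt _
  have a2 : q.2.1.val < M := ZMod.val_lt _
  have b1 : q.1.2 * M ≤ J * M := Nat.mul_le_mul_right _ (by omega)
  have b2 : q.2.2 * M ≤ J * M := Nat.mul_le_mul_right _ (by omega)
  unfold vl
  have e : 2 * ((J + 1) * M) = 2 * (J * M) + 2 * M := by ring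
  rw [e]
  omega

/-- upper bound, general modulus -/
theorem upper1 {M m : ℕ} [NeZero M] [NeZero m] (B : Finset (ZMod M)) (J r : ℕ) (S : Finset ℕ)
    (hSJ : ∀ i ∈ S, i ≤ J) (hB : Bs r B)
    (h : (J + 1) * M ≤ m) (n : ZMod m) : sg (blk m B S) n ≤ 2 * (r * S.card) := by
  classical
  refine (sg_le_QQ m B S n).trans ?_
  have hm : 0 < m := Nat.pos_of_ne_zero (NeZero.ne m)
  have hmap : ∀ q ∈ QQ m B S n, vl q / m ∈ range 2 := by
    intro q hq
    unfold QQ at hq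
    rw [mem_filter, mem_product, mem_product, mem_product] at hq
    have := vl_lt J q (hSJ _ hq.1.1.2) (hSJ _ hq.1.2.2)
    rw [mem_range, Nat.div_lt_iff_lt_mul hm]
    omega
  rw [Finset.card_eq_sum_card_fiberwise hmap]
  refine le_trans (Finset.sum_le_card_nsmul _ _ (r * S.card) ?_) (by simp)
  intro t _
  apply card_fib B S r (((t * m + n.val : ℕ) : ZMod M)) hB
  · intro q hq
    rw [mem_filter] at hq
    obtain ⟨hq1, hq2⟩ := hq
    unfold QQ at hq1
    rw [mem_filter, mem_product, mem_product, mem_product] at hq1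
    obtain ⟨⟨⟨c1, c2⟩, ⟨c3, c4⟩⟩, c5⟩ := hq1
    refine ⟨c1, c3, c2, ?_⟩
    have hv : vl q = t * m + n.val := by
      have h1 : vl q % m = n.val := by
        rw [← c5, ZMod.val_natCast]
      have h2 := Nat.div_add_mod (vl q) m
      rw [hq2, h1] at h2
      rw [← h2]
      ring
    rw [← hv]
    unfold vl
    push_cast
    rw [ZMod.natCast_zmod_val, ZMod.natCast_zmod_val, ZMod.natCast_self]
    ring
  · intro q hq q' hq' _ _ _
    rw [mem_filter] at hq hq'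
    obtain ⟨hq1, hq2⟩ := hq
    obtain ⟨hq1', hq2'⟩ := hq'
    unfold QQ at hq1 hq1'
    rw [mem_filter] at hq1 hq1'
    have h1 : vl q % m = n.val := by rw [← hq1.2, ZMod.val_natCast]
    have h1' : vl q' % m = n.val := by rw [← hq1'.2, ZMod.val_natCast]
    rw [← Nat.div_add_mod (vl q) m, ← Nat.div_add_mod (vl q') m, hq2, hq2', h1, h1']

/-- upper bound, modulus `(2 J + 1) M` -/
theorem upper2 {M m : ℕ} [NeZero M] [NeZero m] (B : Finset (ZMod M)) (J r : ℕ) (S : Finset ℕ)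
    (hSJ : ∀ i ∈ S, i ≤ J) (hB : Bs r B)
    (h : m = (2 * J + 1) * M) (n : ZMod m) : sg (blk m B S) n ≤ r * S.card := by
  classical
  refine (sg_le_QQ m B S n).trans ?_
  have hM : 0 < M := Nat.pos_of_ne_zero (NeZero.ne M)
  have hdvd : M ∣ m := ⟨2 * J + 1, by rw [h]; ring⟩
  apply card_fib B S r ((n.val : ℕ) : ZMod M) hB
  · intro q hq
    unfold QQ at hq
    rw [mem_filter, mem_product, mem_product, mem_product] at hq
    obtain ⟨⟨⟨c1, c2⟩, ⟨c3, c4⟩⟩, c5⟩ := hq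
    refine ⟨c1, c3, c2, ?_⟩
    have h1 : vl q % m = n.val := by rw [← c5, ZMod.val_natCast]
    have h2 : ((vl q : ℕ) : ZMod M) = ((n.val : ℕ) : ZMod M) := by
      rw [ZMod.natCast_eq_natCast_iff]
      have h3 : vl q ≡ n.val [MOD m] := by
        rw [← h1]
        exact (Nat.mod_modEq _ _).symm
      exact h3.of_dvd hdvd
    rw [← h2]
    unfold vl
    push_cast
    rw [ZMod.natCast_zmod_val, ZMod.natCast_zmod_val, ZMod.natCast_self]
    ring
  · intro q hq q' hq' e1 e2 e3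
    unfold QQ at hq hq'
    rw [mem_filter, mem_product, mem_product, mem_product] at hq hq'
    obtain ⟨⟨⟨_, c2⟩, ⟨_, c4⟩⟩, c5⟩ := hq
    obtain ⟨⟨⟨_, _⟩, ⟨_, d4⟩⟩, d5⟩ := hq'
    have c4' := hSJ _ c4
    have d4' := hSJ _ d4
    have h3 : vl q ≡ vl q' [MOD m] := by
      rw [← ZMod.natCast_eq_natCast_iff, c5, d5]
    unfold vl at h3 ⊢
    rw [e1, e2, e3] at h3 ⊢
    have h4 : q.2.2 * M ≡ q'.2.2 * M [MOD m] := by
      have := Nat.ModEq.add_left_cancel' _ h3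
      exact Nat.ModEq.add_left_cancel' _ this
    have b1 : q.2.2 * M ≤ J * M := Nat.mul_le_mul_right _ (by omega)
    have b2 : q'.2.2 * M ≤ J * M := Nat.mul_le_mul_right _ (by omega)
    have hm2 : m = 2 * (J * M) + M := by rw [h]; ring
    have h5 : q.2.2 * M = q'.2.2 * M :=
      Nat.ModEq.eq_of_lt_of_lt h4 (by omega) (by omega)
    rw [h5]

/-- cover lemma -/
theorem cover {M m : ℕ} [NeZero M] [NeZero m] (B : Finset (ZMod M)) (J r : ℕ) (S : Finset ℕ)
    (hS : ∀ c ≤ 2 * J, ∃ i ∈ S, ∃ j ∈ S, i + j = c) (hB : Bs r B)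
    (n : ZMod m) (h : m ≤ 2 * J * M ∨ m = (2 * J + 1) * M) : 1 ≤ sg (blk m B S) n := by
  classical
  have hM : 0 < M := Nat.pos_of_ne_zero (NeZero.ne M)
  have hm : 0 < m := Nat.pos_of_ne_zero (NeZero.ne m)
  -- it is enough to find `b, b', c ≤ 2 J` with `b + b' + c M = n`
  suffices hs : ∃ b ∈ B, ∃ b' ∈ B, ∃ c ≤ 2 * J, ((b.val + b'.val + c * M : ℕ) : ZMod m) = n by
    obtain ⟨b, hb, b', hb', c, hc, he⟩ := hs
    obtain ⟨i, hi, j, hj, hij⟩ := hS c hc
    unfold sg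
    rw [Nat.one_le_iff_ne_zero, ← Nat.pos_iff_ne_zero, Finset.card_pos]
    refine ⟨(((b.val + i * M : ℕ) : ZMod m), ((b'.val + j * M : ℕ) : ZMod m)), ?_⟩
    rw [mem_filter, mem_product]
    refine ⟨⟨?_, ?_⟩, ?_⟩
    · unfold blk
      exact mem_image.mpr ⟨(b, i), mem_product.mpr ⟨hb, hi⟩, rfl⟩
    · unfold blk
      exact mem_image.mpr ⟨(b', j), mem_product.mpr ⟨hb', hj⟩, rfl⟩
    · rw [← he, ← Nat.cast_add]
      congr 1
      have : c * M = i * M + j * M := by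
        rw [← add_mul, hij]
      omega
  rcases h with h | h
  · obtain ⟨N, hN⟩ : ∃ N, N = M + (n - (M : ZMod m)).val := ⟨_, rfl⟩
    have hNm : (N : ZMod m) = n := by
      rw [hN]
      push_cast
      rw [ZMod.natCast_zmod_val]
      ring
    have hN2 : N < M + m := by
      rw [hN]
      have := ZMod.val_lt (n - (M : ZMod m))
      omega
    have h1 := (hB (N : ZMod M)).1
    unfold sg at h1
    obtain ⟨p, hp⟩ := Finset.card_pos.mp h1
    rw [mem_filter, mem_product] at hp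
    obtain ⟨⟨hp1, hp2⟩, hp3⟩ := hp
    have a1 : p.1.val < M := ZMod.val_lt _
    have a2 : p.2.val < M := ZMod.val_lt _
    have h2 : p.1.val + p.2.val ≡ N [MOD M] := by
      rw [← ZMod.natCast_eq_natCast_iff, ← hp3]
      push_cast
      rw [ZMod.natCast_zmod_val, ZMod.natCast_zmod_val]
    have h3 : p.1.val + p.2.val ≤ N := by
      by_contra hlt
      push Not at hlt
      have h4 := (Nat.modEq_iff_dvd' hlt.le).mp h2.symm
      have h5 := Nat.le_of_dvd (by omega) h4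
      omega
    obtain ⟨c, hc⟩ := (Nat.modEq_iff_dvd' h3).mp h2
    refine ⟨p.1, hp1, p.2, hp2, c, ?_, ?_⟩
    · by_contra hlt
      push Not at hlt
      have h6 : M * (2 * J + 1) ≤ M * c := Nat.mul_le_mul_left _ hlt
      have h7 : M * (2 * J + 1) = 2 * J * M + M := by ring
      omega
    · rw [← hNm]
      congr 1
      have : c * M = M * c := mul_comm _ _
      omega
  · obtain ⟨N, hN⟩ : ∃ N, N = n.val := ⟨_, rfl⟩
    have hNm : (N : ZMod m) = n := by
      rw [hN, ZMod.natCast_zmod_val]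
    have hN2 : N < m := by
      rw [hN]
      exact ZMod.val_lt _
    have h1 := (hB (N : ZMod M)).1
    unfold sg at h1
    obtain ⟨p, hp⟩ := Finset.card_pos.mp h1
    rw [mem_filter, mem_product] at hp
    obtain ⟨⟨hp1, hp2⟩, hp3⟩ := hp
    have a1 : p.1.val < M := ZMod.val_lt _
    have a2 : p.2.val < M := ZMod.val_lt _
    have h2 : p.1.val + p.2.val ≡ N [MOD M] := by
      rw [← ZMod.natCast_eq_natCast_iff, ← hp3]
      push_cast
      rw [ZMod.natCast_zmod_val, ZMod.natCast_zmod_val]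
    have hm2 : m = 2 * J * M + M := by rw [h]; ring
    rcases le_or_gt (p.1.val + p.2.val) N with h3 | hlt
    · obtain ⟨c, hc⟩ := (Nat.modEq_iff_dvd' h3).mp h2
      refine ⟨p.1, hp1, p.2, hp2, c, ?_, ?_⟩
      · by_contra hlt
        push Not at hlt
        have h6 : M * (2 * J + 1) ≤ M * c := Nat.mul_le_mul_left _ hlt
        have h7 : M * (2 * J + 1) = 2 * J * M + M := by ring
        omega
      · rw [← hNm]
        congr 1
        have : c * M = M * c := mul_comm _ _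
        omega
    · obtain ⟨c, hc⟩ := (Nat.modEq_iff_dvd' hlt.le).mp h2.symm
      have hc1 : c = 1 := by
        rcases Nat.lt_trichotomy c 1 with h8 | h8 | h8
        · have : c = 0 := by omega
          rw [this, mul_zero] at hc
          omega
        · exact h8
        · have h6 : M * 2 ≤ M * c := Nat.mul_le_mul_left _ h8
          omega
      rw [hc1, mul_one] at hc
      refine ⟨p.1, hp1, p.2, hp2, 2 * J, le_rfl, ?_⟩
      have h9 : p.1.val + p.2.val + 2 * J * M = N + m := by omega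
      rw [h9]
      push_cast
      rw [hNm, ZMod.natCast_self, add_zero]

/-- the gap -/
theorem gap_ge {M m : ℕ} [NeZero M] [NeZero m] (B : Finset (ZMod M)) (J r : ℕ) (S : Finset ℕ)
    (hSJ : ∀ i ∈ S, i ≤ J) (hSn : S.Nonempty) (hB : Bs r B)
    (h : (J + 1) * M ≤ m) : m - (J + 1) * M ≤ gap (blk m B S) := by
  classical
  have hM : 0 < M := Nat.pos_of_ne_zero (NeZero.ne M)
  have hval : ∀ a ∈ blk m B S, a.val < (J + 1) * M := by
    intro a ha
    unfold blk at ha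
    rw [mem_image] at ha
    obtain ⟨p, hp, rfl⟩ := ha
    rw [mem_product] at hp
    have a1 : p.1.val < M := ZMod.val_lt _
    have b1 : p.2 * M ≤ J * M := Nat.mul_le_mul_right _ (hSJ _ hp.2)
    have e : (J + 1) * M = J * M + M := by ring
    rw [ZMod.val_natCast]
    exact lt_of_le_of_lt (Nat.mod_le _ _) (by omega)
  have hne : (blk m B S).Nonempty := by
    obtain ⟨i0, hi0⟩ := hSn
    have h1 := (hB 0).1
    unfold sg at h1
    obtain ⟨p, hp⟩ := Finset.card_pos.mp h1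
    rw [mem_filter, mem_product] at hp
    exact ⟨_, mem_image.mpr ⟨(p.1, i0), mem_product.mpr ⟨hp.1.1, hi0⟩, rfl⟩⟩
  obtain ⟨a, ha, hmax⟩ := Finset.exists_max_image _ (fun a : ZMod m => a.val) hne
  have hbd : BddAbove {g : ℕ | g ≤ m ∧ ∃ a ∈ blk m B S, ∀ i : ℕ, 0 < i → i < g →
      a + (i : ZMod m) ∉ blk m B S} := ⟨m, fun g hg => hg.1⟩
  unfold gap
  apply le_csSup hbd
  refine ⟨by omega, a, ha, fun i hi0 hi hmem => ?_⟩
  have h1 := hval a ha
  have h2 : (a + (i : ZMod m)).val = a.val + i := by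
    have hi2 : ((i : ℕ) : ZMod m).val = i := ZMod.val_cast_of_lt (by omega)
    rw [ZMod.val_add, hi2, Nat.mod_eq_of_lt (by omega)]
  have h3 := hmax _ hmem
  simp only [h2] at h3
  omega

/-- for `k ≥ 2` infinitely many `M` satisfy `R_M ≤ R_(k M)` -/
theorem inf_often (k : ℕ) (hk : 2 ≤ k) (M0 : ℕ) : ∃ M, M0 ≤ M ∧ 0 < M ∧ Rz M ≤ Rz (k * M) := by
  by_contra hcon
  push Not at hcon
  have key : ∀ t : ℕ, Rz (k ^ t * (M0 + 1)) + t ≤ Rz (M0 + 1) := by
    intro t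
    induction t with
    | zero => simp
    | succ t ih =>
      have h1 : 0 < k ^ t := pow_pos (by omega) t
      have h2 : M0 ≤ k ^ t * (M0 + 1) := by
        calc M0 ≤ 1 * (M0 + 1) := by omega
          _ ≤ k ^ t * (M0 + 1) := Nat.mul_le_mul_right _ h1
      have h3 := hcon _ h2 (Nat.mul_pos h1 (by omega))
      have h4 : k * (k ^ t * (M0 + 1)) = k ^ (t + 1) * (M0 + 1) := by ring
      rw [h4] at h3
      omega
  have := key (Rz (M0 + 1) + 1)
  omega

/-- a thin set with `S + S = {0, ..., 2 (s ^ 2 - 1)}` -/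
def thin (s : ℕ) : Finset ℕ :=
  (range s ∪ (range s).image fun k => k * s) ∪
    ((range s).image fun k => k * s + (s - 1)) ∪ (range s).image fun i => s * s - 1 - i

theorem thin_card (s : ℕ) : (thin s).card ≤ 4 * s := by
  unfold thin
  refine (Finset.card_union_le _ _).trans ?_
  refine (Nat.add_le_add (Finset.card_union_le _ _) Finset.card_image_le).trans ?_
  refine (Nat.add_le_add_right (Nat.add_le_add (Finset.card_union_le _ _)
    Finset.card_image_le) _).trans ?_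
  refine (Nat.add_le_add_right (Nat.add_le_add_right (Nat.add_le_add_left
    Finset.card_image_le _) _) _).trans ?_
  rw [card_range]
  omega

theorem sq_split (s k : ℕ) (hk : k < s) : k * s + s ≤ s * s ∧
    s * s - 1 - k * s = (s - 1 - k) * s + (s - 1) := by
  obtain ⟨t, rfl⟩ : ∃ t, s = k + 1 + t := ⟨s - (k + 1), by omega⟩
  have e1 : (k + 1 + t) * (k + 1 + t) = k * (k + 1 + t) + (k + 1 + t) + t * (k + 1 + t) := by ring
  have e2 : k + 1 + t - 1 - k = t := by omega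
  rw [e2, e1]
  constructor
  · omega
  · omega

theorem thin_le (s : ℕ) (i : ℕ) (hi : i ∈ thin s) : i ≤ s * s - 1 := by
  unfold thin at hi
  rw [mem_union, mem_union, mem_union, mem_range, mem_image, mem_image, mem_image] at hi
  rcases hi with ((h | ⟨k, hk, rfl⟩) | ⟨k, hk, rfl⟩) | ⟨k, hk, rfl⟩
  · have := (sq_split s i h).1
    have h2 : i ≤ i * s := Nat.le_mul_of_pos_right _ (by omega)
    omega
  · rw [mem_range] at hk
    have := (sq_split s k hk).1
    omega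
  · rw [mem_range] at hk
    have := (sq_split s k hk).1
    omega
  · omega

theorem thin_cover (s : ℕ) (hs : 1 ≤ s) (c : ℕ) (hc : c ≤ 2 * (s * s - 1)) :
    ∃ i ∈ thin s, ∃ j ∈ thin s, i + j = c := by
  have hss : 1 ≤ s * s := Nat.mul_pos hs hs
  have m1 : ∀ i < s, i ∈ thin s := fun i hi => by
    unfold thin
    simp only [mem_union]
    exact Or.inl (Or.inl (Or.inl (mem_range.mpr hi)))
  have m2 : ∀ k < s, k * s ∈ thin s := fun k hk => by
    unfold thin
    simp only [mem_union]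
    exact Or.inl (Or.inl (Or.inr (mem_image.mpr ⟨k, mem_range.mpr hk, rfl⟩)))
  have m3 : ∀ k < s, k * s + (s - 1) ∈ thin s := fun k hk => by
    unfold thin
    simp only [mem_union]
    exact Or.inl (Or.inr (mem_image.mpr ⟨k, mem_range.mpr hk, rfl⟩))
  have m4 : ∀ i < s, s * s - 1 - i ∈ thin s := fun i hi => by
    unfold thin
    simp only [mem_union]
    exact Or.inr (mem_image.mpr ⟨i, mem_range.mpr hi, rfl⟩)
  rcases Nat.lt_or_ge c (s * s) with h | h
  · refine ⟨c % s, m1 _ (Nat.mod_lt _ hs), c / s * s, m2 _ ?_, ?_⟩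
    · rw [Nat.div_lt_iff_lt_mul hs]
      exact h
    · have := Nat.div_add_mod c s
      have e : s * (c / s) = c / s * s := mul_comm _ _
      omega
  · obtain ⟨d, hd⟩ : ∃ d, d = 2 * (s * s - 1) - c := ⟨_, rfl⟩
    have hd2 : d < s * s := by omega
    have h1 : d % s < s := Nat.mod_lt _ hs
    have h2 : d / s < s := by
      rw [Nat.div_lt_iff_lt_mul hs]
      exact hd2
    have h3 := Nat.div_add_mod d s
    have e : s * (d / s) = d / s * s := mul_comm _ _
    obtain ⟨h4, h5⟩ := sq_split s (d / s) h2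
    refine ⟨s * s - 1 - d % s, m4 _ h1, s * s - 1 - d / s * s, ?_, ?_⟩
    · rw [h5]
      exact m3 _ (lt_of_le_of_lt (Nat.sub_le _ _) (Nat.sub_lt hs Nat.one_pos))
    · have h6 : d % s + d / s * s = d := by omega
      clear h5 h3 e
      obtain ⟨a, ha⟩ : ∃ a, a = d / s * s := ⟨_, rfl⟩
      obtain ⟨b, hb⟩ : ∃ b, b = d % s := ⟨_, rfl⟩
      obtain ⟨q, hq⟩ : ∃ q, q = s * s := ⟨_, rfl⟩
      rw [← ha, ← hq] at h4
      rw [← hb] at h1
      rw [← ha, ← hb] at h6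
      rw [← hq] at hd hd2 hc hss h
      rw [← ha, ← hb, ← hq]
      omega

/-- the construction for `m = (2 J + 1) M` -/
theorem part1 (J ρ : ℕ) (hJ : 1 ≤ J) (S : Finset ℕ) (hSJ : ∀ i ∈ S, i ≤ J) (hSc : S.card ≤ ρ)
    (hS : ∀ c ≤ 2 * J, ∃ i ∈ S, ∃ j ∈ S, i + j = c) (m₀ : ℕ) :
    ∃ m : ℕ, m₀ ≤ m ∧ 0 < m ∧ ∃ A : Finset (ZMod m),
      (∀ n : ZMod m, 1 ≤ sg A n ∧ sg A n ≤ ρ * Rz m) ∧ J * m ≤ (2 * J + 1) * gap A := by
  obtain ⟨M, hM0, hMpos, hR⟩ := inf_often (2 * J + 1) (by omega) m₀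
  have hSn : S.Nonempty := by
    obtain ⟨i, hi, _⟩ := hS 0 (by omega)
    exact ⟨i, hi⟩
  have : NeZero M := ⟨hMpos.ne'⟩
  have hmpos : 0 < (2 * J + 1) * M := Nat.mul_pos (by omega) hMpos
  have : NeZero ((2 * J + 1) * M) := ⟨hmpos.ne'⟩
  obtain ⟨_, B, hB⟩ := pRB M
  refine ⟨(2 * J + 1) * M, ?_, hmpos, blk _ B S, fun n => ⟨cover B J _ S hS hB n (Or.inr rfl), ?_⟩,
    ?_⟩
  · calc m₀ ≤ M := hM0
      _ = 1 * M := (one_mul M).symm
      _ ≤ (2 * J + 1) * M := Nat.mul_le_mul_right _ (by omega)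
  · calc sg (blk ((2 * J + 1) * M) B S) n ≤ Rz M * S.card := upper2 B J _ S hSJ hB rfl n
      _ ≤ Rz ((2 * J + 1) * M) * ρ := Nat.mul_le_mul hR hSc
      _ = ρ * Rz ((2 * J + 1) * M) := mul_comm _ _
  · have h1 : (J + 1) * M ≤ (2 * J + 1) * M := Nat.mul_le_mul_right _ (by omega)
    have h2 := gap_ge (m := (2 * J + 1) * M) B J _ S hSJ hSn hB h1
    have h3 : (2 * J + 1) * M - (J + 1) * M = J * M := by
      rw [← Nat.sub_mul]
      congr 1
      omega
    rw [h3] at h2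
    calc J * ((2 * J + 1) * M) = (2 * J + 1) * (J * M) := by ring
      _ ≤ _ := Nat.mul_le_mul_left _ h2

/-- the construction for all large `m` -/
theorem part2 (ε : ℝ) (hε : 0 < ε) (hε2 : ε ≤ 1 / 2) (m : ℕ) (hm : 20 / ε ^ 2 ≤ m) :
    ∃ A : Finset (ZMod m),
      (∀ n : ZMod m, 1 ≤ sg A n ∧ (sg A n : ℝ) ≤ 300000 / √ε) ∧ (1 / 2 - ε) * m ≤ gap A := by
  have hmR : (0 : ℝ) < m := lt_of_lt_of_le (by positivity) hm
  have hmpos : 0 < m := by exact_mod_cast hmR
  have : NeZero m := ⟨hmpos.ne'⟩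
  have hsq : 0 < √ε := Real.sqrt_pos.mpr hε
  have hsq2 : √ε * √ε = ε := Real.mul_self_sqrt hε.le
  have hsq1 : √ε ≤ 1 := by
    rw [← Real.sqrt_one]
    exact Real.sqrt_le_sqrt (by linarith)
  obtain ⟨s, hsdef⟩ : ∃ s : ℕ, s = ⌈1 / √ε⌉₊ + 1 := ⟨_, rfl⟩
  have hs1 : 1 / √ε + 1 ≤ (s : ℝ) := by
    rw [hsdef]
    push_cast
    have := Nat.le_ceil (1 / √ε)
    linarith
  have hs2 : (s : ℝ) ≤ 3 / √ε := by
    have h1 : (⌈1 / √ε⌉₊ : ℝ) < 1 / √ε + 1 := Nat.ceil_lt_add_one (by positivity)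
    have h2 : 1 ≤ 1 / √ε := by
      rw [le_div_iff₀ hsq]
      linarith
    rw [hsdef]
    push_cast
    have : (3 : ℝ) / √ε = 1 / √ε + 1 / √ε + 1 / √ε := by ring
    linarith
  have hspos : 1 ≤ s := by omega
  obtain ⟨J, hJdef⟩ : ∃ J : ℕ, J = s * s - 1 := ⟨_, rfl⟩
  have hJR : (J : ℝ) + 1 = s * s := by
    have h1 : J + 1 = s * s := by
      have : 1 ≤ s * s := Nat.mul_pos hspos hspos
      omega
    exact_mod_cast h1
  have hinv : 1 / √ε * (1 / √ε) = 1 / ε := by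
    rw [div_mul_div_comm, hsq2, one_mul]
  have hJ1 : 1 / ε ≤ (J : ℝ) := by
    have h0 : 0 < 1 / √ε := by positivity
    have h1 : (1 / √ε + 1) * (1 / √ε + 1) ≤ (s : ℝ) * s :=
      mul_le_mul hs1 hs1 (by positivity) (by linarith)
    nlinarith
  have he2 : (2 : ℝ) ≤ 1 / ε := by
    rw [le_div_iff₀ hε]
    linarith
  have hJ2' : 2 ≤ J := by
    have : (2 : ℝ) ≤ (J : ℝ) := he2.trans hJ1
    exact_mod_cast this
  have hJp : (J : ℝ) + 1 ≤ 9 / ε := by
    rw [hJR]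
    have h0 : (0 : ℝ) ≤ s := by positivity
    calc (s : ℝ) * s ≤ 3 / √ε * (3 / √ε) := mul_le_mul hs2 hs2 h0 (by positivity)
      _ = 9 * (1 / √ε * (1 / √ε)) := by ring
      _ = 9 / ε := by rw [hinv]; ring
  obtain ⟨M, hMdef⟩ : ∃ M : ℕ, M = m / (2 * J) + 1 := ⟨_, rfl⟩
  have hMpos : 0 < M := by rw [hMdef]; exact Nat.succ_pos _
  have : NeZero M := ⟨hMpos.ne'⟩
  have hcov : m ≤ 2 * J * M := by
    have h1 := Nat.lt_mul_div_succ m (show 0 < 2 * J by omega)
    rw [hMdef]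
    exact h1.le
  have hMle : (M : ℝ) ≤ m / (2 * J) + 1 := by
    rw [hMdef]
    push_cast
    have : ((m / (2 * J) : ℕ) : ℝ) ≤ (m : ℝ) / ((2 * J : ℕ) : ℝ) := Nat.cast_div_le
    push_cast at this
    linarith
  have hJpos : (0 : ℝ) < J := by
    have : 0 < J := by omega
    exact_mod_cast this
  have hup : ((J : ℝ) + 1) * M ≤ m / 2 + m / (2 * J) + (J + 1) := by
    calc ((J : ℝ) + 1) * M ≤ (J + 1) * (m / (2 * J) + 1) :=
          mul_le_mul_of_nonneg_left hMle (by positivity)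
      _ = m / 2 + m / (2 * J) + (J + 1) := by
          field_simp
  have hs1' : (m : ℝ) / (2 * J) ≤ ε * m / 2 := by
    rw [div_le_iff₀ (by positivity)]
    have : 1 ≤ ε * J := by
      have := mul_le_mul_of_nonneg_left hJ1 hε.le
      rwa [mul_one_div_cancel hε.ne'] at this
    nlinarith
  have hs2' : (J : ℝ) + 1 ≤ ε * m / 2 := by
    have h4 : 20 / ε ≤ ε * m := by
      have := mul_le_mul_of_nonneg_left hm hε.le
      calc 20 / ε = ε * (20 / ε ^ 2) := by field_simp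
        _ ≤ _ := this
    have h5 : (9 : ℝ) / ε ≤ (20 / ε) / 2 := by
      rw [div_div, div_le_div_iff₀ hε (by positivity)]
      nlinarith
    linarith
  have hgapR : ((J : ℝ) + 1) * M ≤ m / 2 + ε * m := by linarith
  have hle : (J + 1) * M ≤ m := by
    have : ((J : ℝ) + 1) * M ≤ m := by nlinarith
    exact_mod_cast this
  obtain ⟨hRz, B, hB⟩ := pRB M
  have hSJ : ∀ i ∈ thin s, i ≤ J := fun i hi => by
    rw [hJdef]
    exact thin_le s i hi
  have hS : ∀ c ≤ 2 * J, ∃ i ∈ thin s, ∃ j ∈ thin s, i + j = c := fun c hc => by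
    rw [hJdef] at hc
    exact thin_cover s hspos c hc
  have hSn : (thin s).Nonempty := by
    obtain ⟨i, hi, _⟩ := hS 0 (by omega)
    exact ⟨i, hi⟩
  refine ⟨blk m B (thin s), fun n => ⟨cover B J _ _ hS hB n (Or.inl hcov), ?_⟩, ?_⟩
  · have h1 := upper1 B J _ (thin s) hSJ hB hle n
    have h2 : (sg (blk m B (thin s)) n : ℝ) ≤ 2 * ((Rz M : ℝ) * (thin s).card) := by
      exact_mod_cast h1
    have h3 : (Rz M : ℝ) ≤ 11664 := by exact_mod_cast hRz
    have h4 : ((thin s).card : ℝ) ≤ 4 * s := by exact_mod_cast thin_card s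
    calc (sg (blk m B (thin s)) n : ℝ) ≤ 2 * ((Rz M : ℝ) * (thin s).card) := h2
      _ ≤ 2 * (11664 * (4 * (3 / √ε))) := by
          apply mul_le_mul_of_nonneg_left _ (by norm_num)
          apply mul_le_mul h3 _ (by positivity) (by norm_num)
          exact h4.trans (mul_le_mul_of_nonneg_left hs2 (by norm_num))
      _ = 279936 / √ε := by ring
      _ ≤ 300000 / √ε := by
          apply div_le_div_of_nonneg_right (by norm_num) hsq.le
  · have h1 := gap_ge B J _ (thin s) hSJ hSn hB hle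
    have h2 : (m : ℝ) - (J + 1) * M ≤ gap (blk m B (thin s)) := by
      have h3 : ((m - (J + 1) * M : ℕ) : ℝ) ≤ (gap (blk m B (thin s)) : ℝ) := by exact_mod_cast h1
      rw [Nat.cast_sub hle] at h3
      push_cast at h3
      exact h3
    linarith

/-- (1) Let `J ≥ 1` and let `S` be a set of integers in `[0, J]` with `S + S ⊇ {0, ..., 2 J}`. For every `m₀`
there are an `m ≥ m₀` and a set `A` of residues modulo `m` with `1 ≤ σ_A(n) ≤ |S| R_m` for all `n` and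
`(2 J + 1) G(A) ≥ J m`.
(2) For `0 < ε ≤ 1 / 2` and every `m ≥ 20 / ε ^ 2` there is a set `A` of residues modulo `m` with
`1 ≤ σ_A(n) ≤ 300000 / √ε` for all `n` and `G(A) ≥ (1 / 2 - ε) m`. -/
theorem result :
    (∀ J : ℕ, 1 ≤ J → ∀ S : Finset ℕ, (∀ i ∈ S, i ≤ J) →
      (∀ c ≤ 2 * J, ∃ i ∈ S, ∃ j ∈ S, i + j = c) →
      ∀ m₀ : ℕ, ∃ m : ℕ, m₀ ≤ m ∧ 0 < m ∧ ∃ A : Finset (ZMod m),
        (∀ n : ZMod m, 1 ≤ sg A n ∧ sg A n ≤ S.card * Rz m) ∧ J * m ≤ (2 * J + 1) * gap A) ∧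
    (∀ ε : ℝ, 0 < ε → ε ≤ 1 / 2 → ∀ m : ℕ, 20 / ε ^ 2 ≤ m → ∃ A : Finset (ZMod m),
      (∀ n : ZMod m, 1 ≤ sg A n ∧ (sg A n : ℝ) ≤ 300000 / √ε) ∧ (1 / 2 - ε) * m ≤ gap A) :=
  ⟨fun J hJ S hSJ hS m₀ => part1 J S.card hJ S hSJ le_rfl hS m₀,
    fun ε h1 h2 m hm => part2 ε h1 h2 m hm⟩

end Pool.Agent.Results.MP_35947b_nt.NearOptimalGaps
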